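import Mathlib

/-!
# Minimum outdegree five does not suffice for splitting a digraph

An unsplittable digraph with nine vertices and all outdegrees five (found by computer), and its
extensions by further vertices.
-/

set_option autoImplicit false

namespace Pool.Agent.Results.MP_e12783_co.OutdegreeFive

/-- `G` can be split: the vertices are the disjoint union of two nonempty sets in each of which
every vertex has at least two out-neighbours in its own set. -/
def Splits {V : Type} (G : Digraph V) : Prop :=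
  ∃ S : Set V, S.Nonempty ∧ Sᶜ.Nonempty ∧
    (∀ v ∈ S, 2 ≤ {w | w ∈ S ∧ G.Adj v w}.ncard) ∧
    (∀ v ∈ Sᶜ, 2 ≤ {w | w ∈ Sᶜ ∧ G.Adj v w}.ncard)

/-- the out-neighbours -/
def nb : ℕ → List ℕ
  | 0 => [1, 2, 4, 6, 8]
  | 1 => [2, 3, 5, 6, 7]
  | 2 => [3, 4, 5, 7, 8]
  | 3 => [0, 2, 4, 5, 8]
  | 4 => [1, 2, 5, 7, 8]
  | 5 => [0, 3, 6, 7, 8]
  | 6 => [0, 1, 2, 3, 4]
  | 7 => [0, 1, 3, 5, 6]
  | 8 => [0, 1, 4, 6, 7]
  | _ => [0, 1, 2, 3, 4]

lemma nb_ge {v : ℕ} (h : 9 ≤ v) : nb v = [0, 1, 2, 3, 4] := by
  obtain ⟨k, rfl⟩ := Nat.exists_eq_add_of_le h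
  rw [Nat.add_comm]
  rfl

lemma nb_prop (v : ℕ) : (nb v).Nodup ∧ (nb v).length = 5 ∧ (∀ w ∈ nb v, w < 9) ∧ v ∉ nb v := by
  rcases Nat.lt_or_ge v 9 with h | h
  · interval_cases v <;> decide
  · rw [nb_ge h]
    refine ⟨by decide, by decide, by decide, ?_⟩
    simp only [List.mem_cons, List.not_mem_nil, or_false]
    omega

/-- some vertex has at most one out-neighbour in its own class -/
def bad (f : ℕ → Bool) : Bool :=
  (List.range 9).any fun v => decide (((nb v).filter fun w => f w == f v).length < 2)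

/-- the function with a given list of values -/
def fn (l : List Bool) (i : ℕ) : Bool := l.getD i false

/-- all lists of Booleans of length `k` -/
def allL : ℕ → List (List Bool)
  | 0 => [[]]
  | k + 1 => (allL k).flatMap fun l => [false :: l, true :: l]

lemma mem_allL : ∀ (l : List Bool), l ∈ allL l.length
  | [] => by simp [allL]
  | b :: l => by
    have h := mem_allL l
    rw [List.length_cons, allL, List.mem_flatMap]
    refine ⟨l, h, ?_⟩
    cases b <;> simp

/-- all nine values are equal, or the class function is bad -/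
def cond (l : List Bool) : Bool :=
  ((List.range 9).all fun i => fn l i == fn l 0) || bad (fn l)

lemma search : (allL 9).all cond = true := by
  decide +kernel

lemma bad_congr {f g : ℕ → Bool} (h : ∀ i < 9, f i = g i) (hb : bad f = true) :
    ∃ v < 9, ((nb v).filter fun w => g w == g v).length < 2 := by
  unfold bad at hb
  rw [List.any_eq_true] at hb
  obtain ⟨v, hv, hv2⟩ := hb
  have hv9 : v < 9 := List.mem_range.1 hv
  refine ⟨v, hv9, ?_⟩
  have h2 := of_decide_eq_true hv2
  have : (nb v).filter (fun w => g w == g v) = (nb v).filter (fun w => f w == f v) := by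
    apply List.filter_congr
    intro w hw
    rw [h w ((nb_prop v).2.2.1 w hw), h v hv9]
  rw [this]
  exact h2

/-- the digraph -/
def D (n : ℕ) : Digraph (Fin n) := ⟨fun v w => (w : ℕ) ∈ nb v⟩

lemma outdeg {n : ℕ} (hn : 9 ≤ n) (v : Fin n) : {w | (D n).Adj v w}.ncard = 5 := by
  have h := nb_prop v
  have e : (Fin.val '' {w | (D n).Adj v w}) = ((nb v).toFinset : Set ℕ) := by
    ext x
    simp only [Set.mem_image, Set.mem_ofPred_eq, D, List.coe_toFinset]
    constructor
    · rintro ⟨w, hw, rfl⟩
      exact hw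
    · intro hx
      exact ⟨⟨x, lt_of_lt_of_le (h.2.2.1 x hx) hn⟩, hx, rfl⟩
  rw [← Set.ncard_image_of_injective _ Fin.val_injective, e, Set.ncard_coe_finset,
    List.toFinset_card_of_nodup h.1, h.2.1]

lemma not_splits {n : ℕ} (hn : 9 ≤ n) : ¬ Splits (D n) := by
  classical
  rintro ⟨S, hS, hSc, h1, h2⟩
  let f : ℕ → Bool := fun i => decide (∃ h : i < n, (⟨i, h⟩ : Fin n) ∈ S)
  have hf : ∀ v : Fin n, f v = true ↔ v ∈ S := by
    intro v
    simp only [f, decide_eq_true_eq]
    constructor
    · rintro ⟨h, h'⟩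
      exact h'
    · intro h
      exact ⟨v.2, h⟩
  have hff : ∀ v : Fin n, f v = false ↔ v ∈ Sᶜ := by
    intro v
    rw [Set.mem_compl_iff, ← hf v, Bool.not_eq_true]
  -- every vertex has two out-neighbours in its class
  have key : ∀ v : Fin n, 2 ≤ ((nb v).filter fun w => f w == f v).length := by
    intro v
    have hle : ∀ A : Set (Fin n), (∀ w, w ∈ A → (w : ℕ) ∈ nb v ∧ f w = f v) →
        A.ncard ≤ ((nb v).filter fun w => f w == f v).length := by
      intro A hA
      have hsub : Fin.val '' A ⊆ (((nb v).filter fun w => f w == f v).toFinset : Set ℕ) := by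
        rintro x ⟨w, hw, rfl⟩
        rw [List.coe_toFinset]
        simp only [Set.mem_ofPred_eq, List.mem_filter, beq_iff_eq]
        exact hA w hw
      rw [← Set.ncard_image_of_injective A Fin.val_injective]
      refine (Set.ncard_le_ncard hsub (Finset.finite_toSet _)).trans ?_
      rw [Set.ncard_coe_finset]
      exact List.toFinset_card_le _
    by_cases hv : v ∈ S
    · refine (h1 v hv).trans (hle _ ?_)
      rintro w ⟨hw, ha⟩
      exact ⟨ha, by rw [(hf w).2 hw, (hf v).2 hv]⟩
    · refine (h2 v hv).trans (hle _ ?_)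
      rintro w ⟨hw, ha⟩
      exact ⟨ha, by rw [(hff w).2 hw, (hff v).2 hv]⟩
  have hfn : ∀ i < 9, fn [f 0, f 1, f 2, f 3, f 4, f 5, f 6, f 7, f 8] i = f i := by
    intro i hi
    interval_cases i <;> rfl
  have hs := List.all_eq_true.1 search _ (mem_allL [f 0, f 1, f 2, f 3, f 4, f 5, f 6, f 7, f 8])
  unfold cond at hs
  rw [Bool.or_eq_true] at hs
  rcases hs with h | h
  · -- the first nine vertices are in one class
    rw [List.all_eq_true] at h
    have h9 : ∀ i < 9, f i = f 0 := by
      intro i hi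
      have := eq_of_beq (h i (List.mem_range.2 hi))
      rwa [hfn i hi, hfn 0 (by norm_num)] at this
    have hall : ∀ v : Fin n, f v = f 0 := by
      intro v
      by_contra hne
      have hk := key v
      rcases Nat.lt_or_ge v 9 with hv | hv
      · exact hne (h9 v hv)
      · rw [nb_ge hv] at hk
        have hz : ([0, 1, 2, 3, 4].filter fun w => f w == f v) = [] := by
          rw [List.filter_eq_nil_iff]
          intro w hw
          have hw0 : f w = f 0 := by
            apply h9
            simp only [List.mem_cons, List.not_mem_nil, or_false] at hw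
            omega
          rw [hw0]
          intro hc
          exact hne (eq_of_beq hc).symm
        rw [hz] at hk
        simp at hk
    obtain ⟨a, ha⟩ := hS
    obtain ⟨b, hb⟩ := hSc
    have h3 := hall a
    have h4 := hall b
    rw [(hf a).2 ha] at h3
    rw [(hff b).2 hb, ← h3] at h4
    exact absurd h4 (by decide)
  · obtain ⟨v, hv, hlt⟩ := bad_congr (g := f) hfn h
    have := key ⟨v, lt_of_lt_of_le hv hn⟩
    simp only at this
    omega

/-- For every `n ≥ 9` there is a loopless digraph with `n` vertices and all outdegrees `5` that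
cannot be split, so every `d` as in the question is at least `6`. -/
theorem result :
    (∀ n : ℕ, 9 ≤ n → ∃ G : Digraph (Fin n), (∀ v, ¬ G.Adj v v) ∧
      (∀ v, {w | G.Adj v w}.ncard = 5) ∧ ¬ Splits G) ∧
    ∀ d : ℕ, (∀ (V : Type) [Finite V] [Nonempty V] (G : Digraph V), (∀ v, ¬ G.Adj v v) →
      (∀ v, d ≤ {w | G.Adj v w}.ncard) → Splits G) → 6 ≤ d := by
  have h1 : ∀ n : ℕ, 9 ≤ n → ∃ G : Digraph (Fin n), (∀ v, ¬ G.Adj v v) ∧
      (∀ v, {w | G.Adj v w}.ncard = 5) ∧ ¬ Splits G :=
    fun n hn => ⟨D n, fun v => (nb_prop v).2.2.2, outdeg hn, not_splits hn⟩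
  refine ⟨h1, fun d hd => ?_⟩
  by_contra hlt
  obtain ⟨G, hG, h5, hs⟩ := h1 9 le_rfl
  exact hs (hd (Fin 9) G hG fun v => by rw [h5 v]; omega)

end Pool.Agent.Results.MP_e12783_co.OutdegreeFive
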